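import Pool.Agent.P8H48.DC.Stm

/-!
# K'-groups of an open and closed part, over any base: the package KSR (helper5, after KSUM of helper90)
-/

set_option autoImplicit false

open CategoryTheory CategoryTheory.Limits AlgebraicGeometry
open Pool.Agent.R904.CU Pool.Agent.Y116.UV Pool.Agent.Z125.UN Pool.Agent.R904.TR
open Pool.Agent.P8H48.DC

namespace Pool.Agent.P8H5.DC

/-- the localisation at an idempotent -/
theorem idem_iso {k R : Type} [CommRing k] [CommRing R] [Algebra k R] {e : R}
    (he : IsIdempotentElem e) :
    Nonempty (Localization.Away e ≃ₐ[k] (R ⧸ Ideal.span {1 - e})) := by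
  have h1 : IsLocalization.Away e (R ⧸ Ideal.span {1 - e}) :=
    IsLocalization.away_of_isIdempotentElem he Ideal.mk_ker Ideal.Quotient.mk_surjective
  exact ⟨(IsLocalization.algEquiv (Submonoid.powers e) (Localization.Away e)
    (R ⧸ Ideal.span {1 - e})).restrictScalars k⟩

theorem ksr : S_KSR := by
  intro K k _ _ R _ _ _ e he h
  have key : ∀ f : R, IsIdempotentElem f →
      AddGroup.FG (K.G 0 (aff k (R ⧸ Ideal.span {1 - f})).left) ∧
      ∀ n, AddGroup.FG (K.G n (aff k (R ⧸ Ideal.span {f})).left) →
        AddGroup.FG (K.G (n + 1) (aff k (R ⧸ Ideal.span {1 - f})).left) := by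
    intro f hf
    have ht := triple_away (R := k) f
    have hft : FT True (aff k R) := ft_aff True
    obtain ⟨a, b, d, h1, h2, h3, h4⟩ := K.localization _ _ _ _
      (affMap (Ideal.Quotient.mkₐ k (Ideal.span {f}))).left
      (affMap (IsScalarTower.toAlgHom k R (Localization.Away f))).left
      (ft_int hft) ht.closed ht.opened ht.compl
    obtain ⟨iso⟩ := idem_iso (k := k) hf
    have tr : ∀ n, AddGroup.FG (K.G n (aff k (Localization.Away f)).left) →
        AddGroup.FG (K.G n (aff k (R ⧸ Ideal.span {1 - f})).left) := fun n hn =>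
      fg_equiv (K.iso n _ _ ((Over.forget _).mapIso (affIso iso).symm)) hn
    refine ⟨tr 0 ?_, fun n hn => tr (n + 1) ?_⟩
    · have := h 0
      exact AddGroup.fg_of_surjective h4
    · exact fg_exact (b (n + 1)) (d n) (h2 n) (h (n + 1)) hn
  have all : ∀ n : ℕ, ∀ f : R, IsIdempotentElem f →
      AddGroup.FG (K.G n (aff k (R ⧸ Ideal.span {f})).left) := by
    intro n
    induction n with
    | zero =>
      intro f hf
      have h1 := (key (1 - f) hf.one_sub).1
      rw [sub_sub_cancel] at h1
      exact h1
    | succ n ih =>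
      intro f hf
      have h1 := (key (1 - f) hf.one_sub).2 n (ih _ hf.one_sub)
      rw [sub_sub_cancel] at h1
      exact h1
  exact fun n => all n e he

end Pool.Agent.P8H5.DC
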