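import Pool.Agent.P8H48.DC.Stm

/-!
# The cone over the hypersurface `T = 1`: the package TOR (helper5)
-/

set_option autoImplicit false

open CategoryTheory AlgebraicGeometry MvPolynomial
open Pool.Agent.R904.CU Pool.Agent.Y116.UV Pool.Agent.Z125.UN Pool.Agent.R904.TR
open Pool.Agent.P8H48.DC

namespace Pool.Agent.P8H5.DC

section

variable {R : Type} [CommRing R] {α β γ : Type} [Fintype α] [Fintype β] [Fintype γ]
  (T : α → β → γ → R)

/-- no relation -/
noncomputable def nr (σ R : Type) [CommRing R] (k : Empty) : MvPolynomial σ R := k.elim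

/-- the relation `T = 1` -/
noncomputable def rh (_ : Unit) : MvPolynomial (α ⊕ (β ⊕ γ)) R := tri T - 1

/-- the functions on the open part `T ≠ 0` of the affine space -/
abbrev Om : Type := Pc (nr (α ⊕ (β ⊕ γ)) R) (1 * tri T)

/-- the product of the hypersurface `T = 1` with the multiplicative group -/
abbrev Hm : Type := Pc (rl (rh T) Unit) (rename Sum.inl 1 * xs)

/-- the coordinate of the multiplicative group -/
noncomputable def hs : Hm T := pv _ _ (Sum.inr ())

/-- the coordinates on the hypersurface -/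
noncomputable def hx (s : α ⊕ (β ⊕ γ)) : Hm T := pv _ _ (Sum.inl s)

lemma hs_unit : IsUnit (hs T) := pc_unit_right (rl (rh T) Unit) (rename Sum.inl 1) xs

lemma hx_tri : aeval (hx T) (tri T) = 1 := by
  have h := pc_rel (rl (rh T) Unit) (rename Sum.inl 1 * xs) ()
  rw [← pc_aeval, rl, aeval_rename, rh, map_sub] at h
  exact (sub_eq_zero.mp h).trans (map_one (aeval (hx T)))

/-- the values of the coordinates -/
noncomputable def va : α ⊕ (β ⊕ γ) → Hm T
  | Sum.inl i => hs T * hx T (Sum.inl i)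
  | Sum.inr j => hx T (Sum.inr j)

lemma va_tri : aeval (va T) (tri T) = hs T := by
  have h : aeval (va T) (tri T) = hs T * aeval (hx T) (tri T) := by
    rw [aeval_tri, aeval_tri, Finset.mul_sum]
    refine Finset.sum_congr rfl fun i _ => ?_
    rw [Finset.mul_sum]
    refine Finset.sum_congr rfl fun j _ => ?_
    rw [Finset.mul_sum]
    refine Finset.sum_congr rfl fun k _ => ?_
    simp only [va]
    ring
  rw [h, hx_tri, mul_one]

lemma ot_unit : IsUnit (pc (nr (α ⊕ (β ⊕ γ)) R) (1 * tri T) (tri T)) :=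
  pc_unit_right _ 1 (tri T)

/-- the inverse of `T` -/
noncomputable def ot : Om T := ↑(ot_unit T).unit⁻¹

lemma ot_mul : pc (nr (α ⊕ (β ⊕ γ)) R) (1 * tri T) (tri T) * ot T = 1 := (ot_unit T).mul_val_inv

/-- the values of the coordinates -/
noncomputable def vb : (α ⊕ (β ⊕ γ)) ⊕ Unit → Om T
  | Sum.inl (Sum.inl i) => ot T * pv _ _ (Sum.inl i)
  | Sum.inl (Sum.inr j) => pv _ _ (Sum.inr j)
  | Sum.inr _ => pc _ _ (tri T)

lemma vb_tri : aeval (vb T ∘ Sum.inl) (tri T) = 1 := by
  have h : aeval (vb T ∘ Sum.inl) (tri T) =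
      ot T * aeval (pv (nr (α ⊕ (β ⊕ γ)) R) (1 * tri T)) (tri T) := by
    rw [aeval_tri, aeval_tri, Finset.mul_sum]
    refine Finset.sum_congr rfl fun i _ => ?_
    rw [Finset.mul_sum]
    refine Finset.sum_congr rfl fun j _ => ?_
    rw [Finset.mul_sum]
    refine Finset.sum_congr rfl fun k _ => ?_
    simp only [vb, Function.comp]
    ring
  rw [h, pc_aeval, mul_comm, ot_mul]

lemma ha : ∀ k, aeval (va T) (nr (α ⊕ (β ⊕ γ)) R k) = 0 := fun k => k.elim

lemma ha' : IsUnit (aeval (va T) (1 * tri T)) := by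
  have h : aeval (va T) (1 * tri T) = hs T := by
    rw [map_mul, map_one (aeval (va T)), one_mul (aeval (va T) (tri T)), va_tri]
  rw [h]
  exact hs_unit T

lemma hb (k : Unit) : aeval (vb T) (rl (rh T) Unit k) = 0 := by
  rw [rl, aeval_rename, rh, map_sub, map_one, vb_tri, sub_self]

lemma hb' : IsUnit (aeval (vb T) (rename Sum.inl (1 : MvPolynomial (α ⊕ (β ⊕ γ)) R) * xs)) := by
  have h : aeval (vb T) (rename Sum.inl (1 : MvPolynomial (α ⊕ (β ⊕ γ)) R) * xs) =
      pc (nr (α ⊕ (β ⊕ γ)) R) (1 * tri T) (tri T) := by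
    have h1 : rename Sum.inl (1 : MvPolynomial (α ⊕ (β ⊕ γ)) R) * xs =
        (xs : MvPolynomial ((α ⊕ (β ⊕ γ)) ⊕ Unit) R) := by
      rw [map_one (rename Sum.inl), one_mul]
    rw [h1, xs, aeval_X]
    rfl
  rw [h]
  exact ot_unit T

/-- the open part `T ≠ 0` is the product with the multiplicative group -/
noncomputable def torE : Om T ≃ₐ[R] Hm T :=
  pcEquiv (va T) (ha T) (ha' T) (vb T) (hb T) (hb' T)
    (by
      rintro (i | j)
      · change pcLift _ _ (vb T) (hb T) (hb' T) (hs T * hx T (Sum.inl i)) = pv _ _ (Sum.inl i)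
        rw [map_mul, hs, hx, pcLift_pv, pcLift_pv]
        change pc _ _ (tri T) * (ot T * pv _ _ (Sum.inl i)) = pv _ _ (Sum.inl i)
        rw [← mul_assoc, ot_mul]
        exact one_mul _
      · change pcLift _ _ (vb T) (hb T) (hb' T) (hx T (Sum.inr j)) = pv _ _ (Sum.inr j)
        rw [hx, pcLift_pv]
        rfl)
    (by
      have h1 : pcLift _ _ (va T) (ha T) (ha' T) (pc _ _ (tri T)) = hs T := by
        rw [pcLift_pc, va_tri]
      have h2 : pcLift _ _ (va T) (ha T) (ha' T) (ot T) * hs T = 1 := by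
        rw [← h1, ← map_mul, mul_comm (ot T), ot_mul]
        exact map_one _
      rintro ((i | j) | u)
      · change pcLift _ _ (va T) (ha T) (ha' T) (ot T * pv _ _ (Sum.inl i)) = hx T (Sum.inl i)
        rw [map_mul, pcLift_pv]
        change _ * (hs T * hx T (Sum.inl i)) = _
        rw [← mul_assoc, h2]
        exact one_mul _
      · change pcLift _ _ (va T) (ha T) (ha' T) (pv _ _ (Sum.inr j)) = hx T (Sum.inr j)
        rw [pcLift_pv]
        rfl
      · exact h1)

end

theorem tor : S_TOR := by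
  intro R _ sep P hP a b c T
  have hsp : P (aff R (Pc (nr (Fin a ⊕ (Fin b ⊕ Fin c)) R) 1)) := pc_space hP
  have e1 : (MvPolynomial (Fin a ⊕ (Fin b ⊕ Fin c)) R ⧸ Ideal.span {tri T}) ≃ₐ[R]
      Pc (adj (nr (Fin a ⊕ (Fin b ⊕ Fin c)) R) (tri T)) 1 := by
    have h : Ideal.span {tri T} =
        Ideal.span (Set.range (adj (nr (Fin a ⊕ (Fin b ⊕ Fin c)) R) (tri T))) := by
      congr 1
      ext x
      constructor
      · rintro rfl
        exact ⟨none, rfl⟩
      · rintro ⟨_ | k, rfl⟩
        · rfl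
        · exact k.elim
    rw [h]
    exact oneE _
  have e2 : Hyp T ≃ₐ[R] Pc (rh T) 1 := by
    have h : Ideal.span {tri T - 1} = Ideal.span (Set.range (rh T)) := by
      congr 1
      ext x
      constructor
      · rintro rfl
        exact ⟨(), rfl⟩
      · rintro ⟨k, rfl⟩
        rfl
    change (MvPolynomial (Fin a ⊕ (Fin b ⊕ Fin c)) R ⧸ Ideal.span {tri T - 1}) ≃ₐ[R] _
    rw [h]
    exact oneE _
  constructor
  · intro h
    have h1 := iso_alg hP.toUni e1 h
    have h2 : P (aff R (Om T)) := pc_open hP hsp h1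
    have h3 : P (aff R (Hm T)) := iso_alg hP.toUni (torE T) h2
    have h4 : P (aff R (Pc (rh T) 1)) := pc_torus (rh T) 1 hP h3
    exact iso_alg hP.toUni e2.symm h4
  · intro h
    have h1 : P (aff R (Pc (rh T) 1)) := iso_alg hP.toUni e2 h
    have h2 : P (aff R (Hm T)) := pc_gm hP h1
    have h3 : P (aff R (Om T)) := iso_alg hP.toUni (torE T).symm h2
    exact iso_alg hP.toUni e1.symm (pc_closed hP hsp h3)

end Pool.Agent.P8H5.DC
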